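import Pool.Agent.Lib.MP_556c5c_lc.AnyExponent

/-!
# NIP archimedean ordered fields

`OR` is the first order language of ordered rings, `IsNIP K` says that no formula has the independence
property in the complete theory of the ordered field `K` (file `Lib/MP_556c5c_lc/HDG.lean`).
`IsRealClosed` is Mathlib's class.
-/

namespace Pool.Agent.Results.MP_556c5c_lc.NIPDichotomy

open Pool.Agent.Lib.MP_556c5c_lc

/-- Every archimedean ordered field `K` whose complete theory is NIP is real closed, or it has a finite
extension `L`, with an embedding into the reals which is order preserving on `K`, such that for every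
`n ≥ 2` the `n`-th powers have infinite index in `Lˣ`. -/
theorem result :
    ∀ (K : Type) [Field K] [LinearOrder K] [IsStrictOrderedRing K] [Archimedean K],
      IsNIP K → IsRealClosed K ∨
        ∃ (L : Type) (_ : Field L) (_ : Algebra K L) (_ : FiniteDimensional K L) (φ : L →+* ℝ),
          StrictMono (fun k : K => φ (algebraMap K L k)) ∧
          ∀ n : ℕ, 2 ≤ n → Infinite (Lˣ ⧸ (powMonoidHom n : Lˣ →* Lˣ).range) := by
  intro K _ _ _ _ h
  exact (final1 K (nipf_of_isNIP h)).imp isRealClosed_of id

end Pool.Agent.Results.MP_556c5c_lc.NIPDichotomy
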