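import Pool.Agent.Lib.MP_556c5c_lc.All

/-!
# Strongly NIP archimedean ordered fields are real closed

`OR` is the first order language of ordered rings, `HasIct K n` says that the complete theory of the
ordered field `K` has an ict-pattern of depth `ω` with `x` an `n`-tuple, `StronglyNIP K` is its
negation for all `n` (file `Lib/MP_556c5c_lc/HDG.lean`). `IsRealClosed` is Mathlib's class.
-/

namespace Pool.Agent.Results.MP_556c5c_lc.StronglyNIP

open Pool.Agent.Lib.MP_556c5c_lc

/-- Every archimedean ordered field whose complete theory is strongly NIP is real closed. -/
theorem result :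
    ∀ (K : Type) [Field K] [LinearOrder K] [IsStrictOrderedRing K] [Archimedean K],
      StronglyNIP K → IsRealClosed K := by
  intro K _ _ _ _ h
  exact isRealClosed_of (All.final K (noIct_of_stronglyNIP h))

end Pool.Agent.Results.MP_556c5c_lc.StronglyNIP
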